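import Pool.Agent.V11235.SI.LineP

/-! The number of bad prime parameters: the bound from a set of primes of positive lower density. -/

set_option autoImplicit false

namespace Pool.Agent.V11235.SI

open Finset Pool.Agent.H373R2.T7 Pool.Agent.V11235.SF Pool.Agent.V11235.SD

open Classical in
theorem lineP (S : Set ℕ) (hS : ∀ p ∈ S, p.Prime) (hD : Pool.Agent.V11235.SF.Dense S) :
    ∃ η C : ℝ, 0 < η ∧ 0 ≤ C ∧ ∀ (r : ℕ → ℤ), (∀ p ∈ S, ¬ (p : ℤ) ∣ r p) → ∀ B : ℕ, 2 ≤ B →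
      (((Icc 1 B).filter (fun n : ℕ => n.Prime ∧ Bad S r n 1)).card : ℝ) ≤
        C * (B / (Real.log B) ^ (1 + η)) := by
  obtain ⟨δ0, C0, hδ0, hD⟩ := hD
  set δ := min δ0 2 with hδdef
  have hδ : 0 < δ := lt_min hδ0 two_pos
  have hD' : ∀ N : ℕ, δ * (∑ n ∈ range N, Set.indicator {p | p.Prime} (fun _ => (1 : ℝ)) n) - C0 ≤
      ∑ n ∈ range N, Set.indicator S (fun _ => (1 : ℝ)) n := by
    intro N
    refine le_trans (sub_le_sub_right ?_ _) (hD N)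
    refine mul_le_mul_of_nonneg_right (min_le_left _ _) ?_
    exact Finset.sum_nonneg fun _ _ => Set.indicator_nonneg (fun _ _ => zero_le_one) _
  obtain ⟨C1, hC1, hsum⟩ := sum_S S hS δ C0 hδ hD'
  obtain ⟨C2, B0, hC2, hlarge⟩ := line_largeP S hS δ C1 hδ (min_le_right _ _) hsum
  set M : ℝ := (Real.log (B0 + 2)) ^ (1 + δ / 2) with hM
  have hM0 : 0 ≤ M := by
    rw [hM]
    exact Real.rpow_nonneg (Real.log_nonneg (by
      have : (0 : ℝ) ≤ B0 := Nat.cast_nonneg _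
      linarith)) _
  refine ⟨δ / 2, C2 + M, by positivity, by positivity, fun r hr B hB => ?_⟩
  have hBr : (2 : ℝ) ≤ B := by exact_mod_cast hB
  have hL : 0 < Real.log B := Real.log_pos (by linarith)
  have hX : 0 ≤ (B : ℝ) / (Real.log B) ^ (1 + δ / 2) := by positivity
  rw [add_mul]
  by_cases h : B0 ≤ B
  · have h1 := hlarge r hr B h
    have : 0 ≤ M * ((B : ℝ) / (Real.log B) ^ (1 + δ / 2)) := by positivity
    linarith
  · have h1 : (((Icc 1 B).filter (fun n : ℕ => n.Prime ∧ Bad S r n 1)).card : ℝ) ≤ B := by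
      have h2 : ((Icc 1 B).filter (fun n : ℕ => n.Prime ∧ Bad S r n 1)).card ≤ B := by
        refine (Finset.card_filter_le _ _).trans ?_
        rw [Nat.card_Icc]
        omega
      exact_mod_cast h2
    have h4 : (Real.log B) ^ (1 + δ / 2) ≤ M := by
      rw [hM]
      refine Real.rpow_le_rpow hL.le (Real.log_le_log (by linarith) ?_) (by positivity)
      have : (B : ℝ) ≤ B0 := by
        push Not at h
        exact_mod_cast h.le
      linarith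
    have h5 : (B : ℝ) ≤ M * ((B : ℝ) / (Real.log B) ^ (1 + δ / 2)) := by
      rw [mul_div_assoc', le_div_iff₀ (by positivity)]
      nlinarith
    have : 0 ≤ C2 * ((B : ℝ) / (Real.log B) ^ (1 + δ / 2)) := by positivity
    linarith

theorem not_dvd_of_unit (p : ℕ) (hp : p.Prime) (Θ : ZMod (p ^ 2)) (hΘ : IsUnit Θ) (r : ℤ)
    (hr : (r : ZMod (p ^ 2)) = Θ) : ¬ (p : ℤ) ∣ r := by
  rintro ⟨m, hm⟩
  have hf : Fact (1 < p ^ 2) := ⟨Nat.one_lt_pow two_ne_zero hp.one_lt⟩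
  have h1 : Θ ^ 2 = 0 := by
    have h2 : ((r ^ 2 : ℤ) : ZMod (p ^ 2)) = 0 := by
      rw [ZMod.intCast_zmod_eq_zero_iff_dvd, hm]
      push_cast
      exact ⟨m ^ 2, by ring⟩
    rw [← hr, ← h2]
    push_cast
    rfl
  have h3 := hΘ.pow 2
  rw [h1] at h3
  exact not_isUnit_zero h3

theorem prime_count (S : Set ℕ) (hS : ∀ p ∈ S, p.Prime) (hD : Pool.Agent.V11235.SF.Dense S) :
    ∃ η C : ℝ, 0 < η ∧ 0 ≤ C ∧ ∀ (Θ : ∀ p : ℕ, ZMod (p ^ 2)), (∀ p ∈ S, IsUnit (Θ p)) →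
      ∀ (E : Set ℕ),
      (∀ p ∈ S, ∀ n ∈ E, ¬ Good p (Θ p) (((n : ℕ) : ℤ) : ZMod (p ^ 2)) ((1 : ℤ) : ZMod (p ^ 2))) →
      ∀ B : ℕ, 2 ≤ B →
        (Set.ncard {n : ℕ | n.Prime ∧ n ∈ E ∧ n ≤ B} : ℝ) ≤
          C * (B / (Real.log B) ^ (1 + η)) := by
  classical
  obtain ⟨η, C, hη, hC, hline⟩ := lineP S hS hD
  refine ⟨η, C, hη, hC, fun Θ hΘ E hE B hB => ?_⟩
  have hr : ∀ p : ℕ, ∃ r : ℤ, (r : ZMod (p ^ 2)) = Θ p := fun p => ZMod.intCast_surjective _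
  choose r hr using hr
  have hbad : ∀ n ∈ E, Bad S r (n : ℕ) 1 := by
    intro t ht p hp hb h1
    by_contra h2
    exact hE p hp t ht (good_of_not p (hS p hp) (Θ p) (r p) t 1 (hr p) hb h1 h2)
  have hsub : {n : ℕ | n.Prime ∧ n ∈ E ∧ n ≤ B} ⊆
      (((Icc 1 B).filter (fun n : ℕ => n.Prime ∧ Bad S r n 1) : Finset ℕ) : Set ℕ) := by
    rintro n ⟨h1, h2, h3⟩
    rw [Finset.mem_coe, Finset.mem_filter, Finset.mem_Icc]
    exact ⟨⟨h1.pos, h3⟩, h1, hbad n h2⟩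
  have h1 := Set.ncard_le_ncard hsub (Finset.finite_toSet _)
  rw [Set.ncard_coe_finset] at h1
  refine le_trans ?_ (hline r (fun p hp => not_dvd_of_unit p (hS p hp) (Θ p) (hΘ p hp) (r p) (hr p))
    B hB)
  exact_mod_cast h1

end Pool.Agent.V11235.SI
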