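import Pool.Agent.V11235.SI.Prime

/-! The number of bad prime parameters: the estimate. -/

set_option autoImplicit false

namespace Pool.Agent.V11235.SI

open Finset Pool.Agent.H373R2.T7 Pool.Agent.V11235.SF Pool.Agent.V11235.SD

open Classical in
theorem line_largeP (S : Set ℕ) (hS : ∀ p ∈ S, p.Prime) (δ C1 : ℝ) (hδ : 0 < δ) (hδ2 : δ ≤ 2)
    (hsum : ∀ N : ℕ, 3 ≤ N → δ * Real.log (Real.log N) - C1 ≤
      ∑ p ∈ (Icc 1 N).filter (· ∈ S), (1 : ℝ) / p) :
    ∃ (C2 : ℝ) (B0 : ℕ), 0 ≤ C2 ∧ ∀ (r : ℕ → ℤ), (∀ p ∈ S, ¬ (p : ℤ) ∣ r p) → ∀ B : ℕ, B0 ≤ B →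
      (((Icc 1 B).filter (fun n : ℕ => n.Prime ∧ Bad S r n 1)).card : ℝ) ≤
        C2 * (B / (Real.log B) ^ (1 + δ / 2)) := by
  obtain ⟨K, x0, hK, hfund⟩ := sys_fund 2 (by norm_num) 1 one_pos
  obtain ⟨C3, hC3⟩ := Pool.Agent.Erdos456.Mert.mertens_inv
  set κ : ℝ := 1 / ((K : ℝ) + 1) with hκ
  have hKr : (1 : ℝ) ≤ K := by exact_mod_cast hK
  have hκ0 : 0 < κ := by rw [hκ]; positivity
  have hκ1 : κ ≤ 1 / 2 := by
    rw [hκ]
    apply one_div_le_one_div_of_le (by norm_num)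
    linarith
  -- the constants
  set C4 : ℝ := C1 + C3 + C3 + (1 + δ) * (-Real.log (κ / 2)) + δ / 4 * Real.log 2 - 1 -
    Real.log (δ / 4) with hC4
  have hev : ∀ᶠ B : ℕ in Filter.atTop, 3 ≤ Real.log B ∧ (2 : ℝ) ≤ (B : ℝ) ^ (κ / 2) ∧
      (x0 : ℝ) + 3 ≤ (B : ℝ) ^ (κ / 2) := by
    have hB : Filter.Tendsto (fun B : ℕ => (B : ℝ)) Filter.atTop Filter.atTop :=
      tendsto_natCast_atTop_atTop
    have h1 : Filter.Tendsto (fun B : ℕ => Real.log B) Filter.atTop Filter.atTop :=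
      Real.tendsto_log_atTop.comp hB
    have h2 : Filter.Tendsto (fun B : ℕ => (B : ℝ) ^ (κ / 2)) Filter.atTop Filter.atTop :=
      (tendsto_rpow_atTop (by positivity)).comp hB
    exact (h1.eventually_ge_atTop 3).and ((h2.eventually_ge_atTop 2).and
      (h2.eventually_ge_atTop _))
  obtain ⟨B0, hB0⟩ := Filter.eventually_atTop.1 hev
  refine ⟨2 * Real.exp C4 + 51, max B0 1, by positivity, fun r hr B hB => ?_⟩
  obtain ⟨hL3, hB2, hBx⟩ := hB0 B ((le_max_left _ _).trans hB)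
  have hB1 : 1 ≤ B := (le_max_right _ _).trans hB
  have hBr : (1 : ℝ) ≤ B := by exact_mod_cast hB1
  have hBpos : (0 : ℝ) < B := by linarith
  set L := Real.log B with hL
  have hLpos : 0 < L := by linarith
  -- `y0` and `y`
  set y0 := ⌈L ^ 2⌉₊ with hy0
  set y := ⌊(B : ℝ) ^ κ⌋₊ with hy
  have hL9 : 9 ≤ L ^ 2 := by nlinarith
  have hy0L : L ^ 2 ≤ y0 := Nat.le_ceil _
  have hy0L2 : (y0 : ℝ) ≤ 2 * L ^ 2 := by
    have := Nat.ceil_lt_add_one (show 0 ≤ L ^ 2 by positivity)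
    linarith
  have hy03 : 3 ≤ y0 := by
    have : (3 : ℝ) ≤ y0 := by linarith
    exact_mod_cast this
  have hpowκ : ((B : ℝ) ^ (κ / 2)) * ((B : ℝ) ^ (κ / 2)) = (B : ℝ) ^ κ := by
    rw [← Real.rpow_add hBpos]
    congr 1
    ring
  have hy_low : (B : ℝ) ^ (κ / 2) ≤ y := by
    have h1 : (B : ℝ) ^ κ < y + 1 := Nat.lt_floor_add_one _
    have h2 : (B : ℝ) ^ (κ / 2) + 1 ≤ (B : ℝ) ^ κ := by
      rw [← hpowκ]
      nlinarith
    linarith
  have hy_up : (y : ℝ) ≤ (B : ℝ) ^ κ := Nat.floor_le (by positivity)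
  have hyx : x0 + 3 ≤ y := by
    have : ((x0 + 3 : ℕ) : ℝ) ≤ y := by
      push_cast
      linarith
    exact_mod_cast this
  have hy1 : (1 : ℝ) ≤ y := by
    have : (1 : ℝ) ≤ (B : ℝ) ^ (κ / 2) := by linarith
    linarith
  have hyK1 : (y : ℝ) ^ (K + 1) ≤ B := by
    calc (y : ℝ) ^ (K + 1) ≤ ((B : ℝ) ^ κ) ^ (K + 1) := pow_le_pow_left₀ (by linarith) hy_up _
      _ = B := by
        rw [← Real.rpow_natCast, ← Real.rpow_mul hBpos.le, hκ]
        have : 1 / ((K : ℝ) + 1) * ((K + 1 : ℕ) : ℝ) = 1 := by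
          push_cast
          field_simp
        rw [this, Real.rpow_one]
  have hyK : y ^ K ≤ B := by
    have h1 : (y : ℝ) ^ K ≤ B := by
      refine le_trans ?_ hyK1
      rw [pow_succ]
      exact le_mul_of_one_le_right (by positivity) hy1
    exact_mod_cast h1
  have hysq : (y : ℝ) ≤ √(B : ℝ) := by
    apply Real.le_sqrt_of_sq_le
    refine le_trans ?_ hyK1
    exact pow_le_pow_right₀ hy1 (by omega)
  have hsqrt : √(B : ℝ) ≤ 16 * (B / L ^ 2) := by
    have hs0 : 0 < √(B : ℝ) := Real.sqrt_pos.2 hBpos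
    have ht0 : 0 < √(√(B : ℝ)) := Real.sqrt_pos.2 hs0
    have h1 : L = 4 * Real.log (√(√(B : ℝ))) := by
      rw [Real.log_sqrt hs0.le, Real.log_sqrt hBpos.le]
      ring
    have h2 := Real.log_le_sub_one_of_pos ht0
    have h3 : L ≤ 4 * √(√(B : ℝ)) := by linarith
    have h4 : √(B : ℝ) * √(B : ℝ) = B := Real.mul_self_sqrt hBpos.le
    have h5 : √(√(B : ℝ)) * √(√(B : ℝ)) = √(B : ℝ) := Real.mul_self_sqrt hs0.le
    have h6 : L ^ 2 ≤ 16 * √(B : ℝ) := by
      calc L ^ 2 ≤ (4 * √(√(B : ℝ))) ^ 2 := pow_le_pow_left₀ hLpos.le h3 2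
        _ = 16 * (√(√(B : ℝ)) * √(√(B : ℝ))) := by ring
        _ = 16 * √(B : ℝ) := by rw [h5]
    rw [mul_div_assoc', le_div_iff₀ (by positivity)]
    calc √(B : ℝ) * L ^ 2 ≤ √(B : ℝ) * (16 * √(B : ℝ)) :=
          mul_le_mul_of_nonneg_left h6 hs0.le
      _ = 16 * B := by
        rw [← h4]
        ring_nf
        rw [Real.sq_sqrt (by positivity)]
  -- the sieve
  have hsv := hfund B y (by omega) hyK (QP S r y0) (perQP S r y0) B
  have hsplit := split_countP S r y0 y B (by omega)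
  have hprod := prod_boundP S hS r hr y0 y
  set V := ∏ p ∈ pz y, (1 - (nuB (QP S r y0) p : ℝ) / p) with hV
  have hcard := (abs_le.1 hsv).2
  -- the sums
  have hs1 := hsum y (by omega)
  have hs2 := (abs_le.1 (hC3 y0 hy03)).2
  have hs3 := (abs_le.1 (hC3 y (by omega))).1
  -- the logarithms
  have hlogy : κ / 2 * L ≤ Real.log y := by
    have h1 := Real.log_le_log (by positivity) hy_low
    rwa [Real.log_rpow hBpos] at h1
  have hLL1 : Real.log (κ / 2) + Real.log L ≤ Real.log (Real.log y) := by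
    rw [← Real.log_mul (by positivity) hLpos.ne']
    exact Real.log_le_log (by positivity) hlogy
  have hLL2 : Real.log (Real.log y0) ≤
      δ / 4 * (Real.log 2 + 2 * Real.log L) - 1 - Real.log (δ / 4) := by
    have h1 : Real.log y0 ≤ Real.log 2 + 2 * Real.log L := by
      have h0 : (2 : ℝ) * Real.log L = Real.log (L ^ 2) := by
        rw [Real.log_pow]
        norm_num
      rw [h0, ← Real.log_mul (by norm_num) (by positivity)]
      exact Real.log_le_log (by linarith) hy0L2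
    have h2 : 0 < Real.log y0 := Real.log_pos (by linarith)
    have h3 : Real.log (Real.log y0) ≤ Real.log (Real.log 2 + 2 * Real.log L) :=
      Real.log_le_log h2 h1
    have h4 : 0 < Real.log 2 + 2 * Real.log L := by linarith
    have h5 := Real.log_le_sub_one_of_pos
      (show 0 < δ / 4 * (Real.log 2 + 2 * Real.log L) by positivity)
    rw [Real.log_mul (by positivity) h4.ne'] at h5
    linarith
  have hexp : -(∑ p ∈ (Icc 1 y).filter Nat.Prime, (1 : ℝ) / p) -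
        (∑ p ∈ (Icc 1 y).filter (· ∈ S), (1 : ℝ) / p) +
        ∑ p ∈ (Icc 1 y0).filter Nat.Prime, (1 : ℝ) / p ≤
      C4 - (1 + δ / 2) * Real.log L := by
    have h1 : (1 + δ) * (Real.log (κ / 2) + Real.log L) ≤ (1 + δ) * Real.log (Real.log y) :=
      mul_le_mul_of_nonneg_left hLL1 (by linarith)
    rw [hC4]
    nlinarith
  have hVb : V ≤ Real.exp C4 / L ^ (1 + δ / 2) := by
    refine hprod.trans ?_
    refine (Real.exp_le_exp.2 hexp).trans ?_
    rw [Real.exp_sub, Real.rpow_def_of_pos hLpos, mul_comm (Real.log L)]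
  have hLδ : 0 < L ^ (1 + δ / 2) := by positivity
  have hLδ1 : L ^ (1 + δ / 2) ≤ L ^ 2 := by
    calc L ^ (1 + δ / 2) ≤ L ^ (2 : ℝ) :=
          Real.rpow_le_rpow_of_exponent_le (by linarith) (by linarith)
      _ = L ^ 2 := by norm_num
  have hBL : B / L ^ 2 ≤ B / L ^ (1 + δ / 2) := div_le_div_of_nonneg_left hBpos.le hLδ hLδ1
  have hBy0 : (2 * (B : ℝ) + 1) / y0 ≤ 3 * (B / L ^ 2) := by
    rw [mul_div_assoc', div_le_div_iff₀ (by linarith) (by positivity)]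
    have h1 : (2 * (B : ℝ) + 1) * L ^ 2 ≤ 3 * B * L ^ 2 :=
      mul_le_mul_of_nonneg_right (by linarith) (by positivity)
    have h2 : 3 * (B : ℝ) * L ^ 2 ≤ 3 * B * y0 :=
      mul_le_mul_of_nonneg_left hy0L (by positivity)
    linarith
  have hmain : 2 * ((B : ℝ) * V) ≤ 2 * Real.exp C4 * (B / L ^ (1 + δ / 2)) := by
    have h1 : (B : ℝ) * V ≤ B * (Real.exp C4 / L ^ (1 + δ / 2)) :=
      mul_le_mul_of_nonneg_left hVb (by positivity)
    have h3 : (B : ℝ) * (Real.exp C4 / L ^ (1 + δ / 2)) =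
      Real.exp C4 * (B / L ^ (1 + δ / 2)) := by ring
    linarith
  nlinarith

end Pool.Agent.V11235.SI
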