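import Pool.Agent.V11235.SF.Count

/-! The number of bad prime parameters. -/

set_option autoImplicit false

namespace Pool.Agent.V11235.SI

open Finset Pool.Agent.H373R2.T7 Pool.Agent.V11235.SF Pool.Agent.V11235.SD

/-- the sieving conditions -/
def QP (S : Set ℕ) (r : ℕ → ℤ) (y0 : ℕ) (p n : ℕ) : Prop :=
  (p : ℤ) ∣ (n : ℤ) ∨ (p ∈ S ∧ y0 < p ∧ (p : ℤ) ∣ (n : ℤ) - r p)

theorem one_class (p : ℕ) (c : ℤ) [DecidablePred fun n : ℕ => (p : ℤ) ∣ (n : ℤ) - c] :
    ((range p).filter (fun n : ℕ => (p : ℤ) ∣ (n : ℤ) - c)).card ≤ 1 := by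
  rw [Finset.card_le_one]
  intro x hx z hz
  rw [Finset.mem_filter, Finset.mem_range] at hx hz
  obtain ⟨hx1, hx2⟩ := hx
  obtain ⟨hz1, hz2⟩ := hz
  have h1 : (p : ℤ) ∣ (x : ℤ) - z := by
    have := dvd_sub hx2 hz2
    rwa [show ((x : ℤ) - c) - ((z : ℤ) - c) = (x : ℤ) - z by ring] at this
  have h2 : |(x : ℤ) - z| < p := by
    rw [abs_lt]
    constructor <;> omega
  have h3 := Int.eq_zero_of_abs_lt_dvd h1 h2
  omega

theorem perQP (S : Set ℕ) (r : ℕ → ℤ) (y0 : ℕ) : PerB (QP S r y0) 2 := by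
  classical
  refine ⟨?_, ?_⟩
  · intro p n
    unfold QP
    have h1 : (p : ℤ) ∣ (n : ℤ) - ((n % p : ℕ) : ℤ) := by
      rw [Int.natCast_mod]
      exact Int.dvd_self_sub_emod
    have h2 : ∀ c : ℤ, ((p : ℤ) ∣ (n : ℤ) - c) ↔ ((p : ℤ) ∣ ((n % p : ℕ) : ℤ) - c) := by
      intro c
      have h3 : (n : ℤ) - c = (((n % p : ℕ) : ℤ) - c) + ((n : ℤ) - ((n % p : ℕ) : ℤ)) := by ring
      rw [h3]
      exact dvd_add_left h1
    have h4 := h2 0
    rw [sub_zero, sub_zero] at h4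
    rw [h2, h4]
  · intro p _
    unfold nuB
    have hsub : (range p).filter (fun n => QP S r y0 p n) ⊆
        ((range p).filter (fun n : ℕ => (p : ℤ) ∣ (n : ℤ) - 0)) ∪
          ((range p).filter (fun n : ℕ => (p : ℤ) ∣ (n : ℤ) - r p)) := by
      intro n hn
      rw [Finset.mem_filter] at hn
      rw [Finset.mem_union, Finset.mem_filter, Finset.mem_filter, sub_zero]
      rcases hn.2 with h | h
      · exact Or.inl ⟨hn.1, h⟩
      · exact Or.inr ⟨hn.1, h.2.2⟩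
    refine (Finset.card_le_card hsub).trans ((Finset.card_union_le _ _).trans ?_)
    have h1 := one_class p 0
    have h2 := one_class p (r p)
    omega

theorem nuQP_one (S : Set ℕ) (r : ℕ → ℤ) (y0 : ℕ) (p : ℕ) (hp : p.Prime) :
    1 ≤ nuB (QP S r y0) p := by
  classical
  unfold nuB
  rw [Nat.one_le_iff_ne_zero, Ne, Finset.card_eq_zero, ← Ne, ← Finset.nonempty_iff_ne_empty]
  refine ⟨0, ?_⟩
  rw [Finset.mem_filter, Finset.mem_range]
  exact ⟨hp.pos, Or.inl (by simp)⟩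

theorem nuQP_two (S : Set ℕ) (r : ℕ → ℤ) (y0 : ℕ) (p : ℕ) (hp : p.Prime) (hS : p ∈ S)
    (hy : y0 < p) (hr : ¬ (p : ℤ) ∣ r p) : 2 ≤ nuB (QP S r y0) p := by
  classical
  have hp0 : (0 : ℤ) < p := by exact_mod_cast hp.pos
  have h1 := Int.emod_nonneg (r p) hp0.ne'
  have h2 := Int.emod_lt_of_pos (r p) hp0
  have h3 : r p % p ≠ 0 := fun h => hr (Int.dvd_of_emod_eq_zero h)
  unfold nuB
  have hsub : ({0, (r p % p).toNat} : Finset ℕ) ⊆ (range p).filter (fun n => QP S r y0 p n) := by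
    intro n hn
    rw [Finset.mem_insert, Finset.mem_singleton] at hn
    rw [Finset.mem_filter, Finset.mem_range]
    rcases hn with rfl | rfl
    · exact ⟨hp.pos, Or.inl (by simp)⟩
    · refine ⟨by omega, Or.inr ⟨hS, hy, ?_⟩⟩
      rw [Int.toNat_of_nonneg h1]
      have h4 := dvd_neg.2 (Int.dvd_self_sub_emod (x := r p) (m := p))
      rwa [neg_sub] at h4
  have h5 := Finset.card_le_card hsub
  rwa [Finset.card_pair (by omega)] at h5

/-- the product in the sieve -/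
theorem prod_boundP (S : Set ℕ) [DecidablePred (· ∈ S)] (hS : ∀ p ∈ S, p.Prime) (r : ℕ → ℤ)
    (hr : ∀ p ∈ S, ¬ (p : ℤ) ∣ r p) (y0 y : ℕ) :
    ∏ p ∈ pz y, (1 - (nuB (QP S r y0) p : ℝ) / p) ≤
      Real.exp (-(∑ p ∈ (Icc 1 y).filter Nat.Prime, (1 : ℝ) / p) -
        (∑ p ∈ (Icc 1 y).filter (· ∈ S), (1 : ℝ) / p) +
        ∑ p ∈ (Icc 1 y0).filter Nat.Prime, (1 : ℝ) / p) := by
  classical
  have hQ := perQP S r y0
  have h1 : ∏ p ∈ pz y, (1 - (nuB (QP S r y0) p : ℝ) / p) ≤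
      ∏ p ∈ pz y, Real.exp (-((nuB (QP S r y0) p : ℝ) / p)) := by
    refine Finset.prod_le_prod ?_ ?_
    · intro p hp
      have hpp := (mem_pz.1 hp).2
      have h2 : (nuB (QP S r y0) p : ℝ) ≤ 2 := by exact_mod_cast hQ.few p hpp
      have h3 : (2 : ℝ) ≤ p := by exact_mod_cast hpp.two_le
      rw [sub_nonneg, div_le_one (by linarith)]
      linarith
    · intro p _
      have := Real.add_one_le_exp (-((nuB (QP S r y0) p : ℝ) / p))
      linarith
  refine h1.trans ?_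
  rw [← Real.exp_sum, Real.exp_le_exp, Finset.sum_neg_distrib]
  have hnn : ∀ p : ℕ, (0 : ℝ) ≤ (1 : ℝ) / p := fun p => by positivity
  have h4 : ∑ p ∈ (Icc 1 y).filter (· ∈ S), (1 : ℝ) / p ≤
      ∑ p ∈ (pz y).filter (fun p => p ∈ S ∧ y0 < p), (1 : ℝ) / p +
        ∑ p ∈ (Icc 1 y0).filter Nat.Prime, (1 : ℝ) / p := by
    have h5 : (Icc 1 y).filter (· ∈ S) ⊆
        ((pz y).filter (fun p => p ∈ S ∧ y0 < p)) ∪ ((Icc 1 y0).filter Nat.Prime) := by
      intro p hp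
      rw [Finset.mem_filter, Finset.mem_Icc] at hp
      rw [Finset.mem_union, Finset.mem_filter, Finset.mem_filter, mem_pz, Finset.mem_Icc]
      have hpp := hS p hp.2
      by_cases h6 : y0 < p
      · left
        exact ⟨⟨hp.1.2, hpp⟩, hp.2, h6⟩
      · right
        exact ⟨⟨hp.1.1, by omega⟩, hpp⟩
    exact (Finset.sum_le_sum_of_subset_of_nonneg h5 fun p _ _ => hnn p).trans
      (sum_union_le' _ _ _ hnn)
  have h7 : ∑ p ∈ (Icc 1 y).filter Nat.Prime, (1 : ℝ) / p +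
      ∑ p ∈ (pz y).filter (fun p => p ∈ S ∧ y0 < p), (1 : ℝ) / p ≤
      ∑ p ∈ pz y, (nuB (QP S r y0) p : ℝ) / p := by
    have h8 : (Icc 1 y).filter Nat.Prime = pz y := rfl
    rw [h8, Finset.sum_filter, ← Finset.sum_add_distrib]
    refine Finset.sum_le_sum fun p hp => ?_
    have hpp := (mem_pz.1 hp).2
    have hp0 : (0 : ℝ) < p := by exact_mod_cast hpp.pos
    split_ifs with h
    · have h9 : (2 : ℝ) ≤ nuB (QP S r y0) p := by
        exact_mod_cast nuQP_two S r y0 p hpp h.1 h.2 (hr p h.1)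
      rw [← add_div]
      exact div_le_div_of_nonneg_right (by linarith) hp0.le
    · have h9 : (1 : ℝ) ≤ nuB (QP S r y0) p := by
        exact_mod_cast nuQP_one S r y0 p hpp
      rw [add_zero]
      exact div_le_div_of_nonneg_right h9 hp0.le
  linarith

open Classical in
theorem split_countP (S : Set ℕ) (r : ℕ → ℤ) (y0 y B : ℕ) (hy0 : 0 < y0) :
    (((Icc 1 B).filter (fun n : ℕ => n.Prime ∧ Bad S r n 1)).card : ℝ) ≤
      (((Icc 1 B).filter (fun n : ℕ => ∀ p ∈ pz y, ¬ QP S r y0 p n)).card : ℝ) +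
        ((2 * B + 1) / y0 + y) + y := by
  have hsub : (Icc 1 B).filter (fun n : ℕ => n.Prime ∧ Bad S r n 1) ⊆
      ((Icc 1 B).filter (fun n : ℕ => ∀ p ∈ pz y, ¬ QP S r y0 p n)) ∪
      (((Ioc y0 y).biUnion fun p => ((Icc (-(B : ℤ)) B).filter
        (fun a => ((p ^ 2 : ℕ) : ℤ) ∣ a - r p)).image Int.toNat) ∪ Icc 1 y) := by
    intro n hn
    rw [Finset.mem_filter, Finset.mem_Icc] at hn
    obtain ⟨⟨hn1, hn2⟩, hnp, hbad⟩ := hn
    rw [Finset.mem_union, Finset.mem_union]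
    by_cases hny : n ≤ y
    · right; right
      exact Finset.mem_Icc.2 ⟨hn1, hny⟩
    by_cases h : ∀ p ∈ pz y, ¬ QP S r y0 p n
    · left
      rw [Finset.mem_filter, Finset.mem_Icc]
      exact ⟨⟨hn1, hn2⟩, h⟩
    · right; left
      push Not at h
      obtain ⟨p, hp, hQ⟩ := h
      have hpp := (mem_pz.1 hp).2
      have hpy := (mem_pz.1 hp).1
      rcases hQ with hQ | ⟨hpS, hpy0, hdvd⟩
      · exfalso
        have h1 : p ∣ n := by exact_mod_cast hQ
        rcases (Nat.dvd_prime hnp).1 h1 with h2 | h2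
        · exact hpp.one_lt.ne' h2
        · omega
      · rw [Finset.mem_biUnion]
        refine ⟨p, Finset.mem_Ioc.2 ⟨hpy0, hpy⟩, ?_⟩
        rw [Finset.mem_image]
        refine ⟨n, ?_, Int.toNat_natCast n⟩
        rw [Finset.mem_filter, Finset.mem_Icc]
        refine ⟨⟨by omega, by omega⟩, ?_⟩
        push_cast
        have h3 : ¬ (p : ℤ) ∣ 1 := by
          intro h4
          have h5 := Int.natAbs_dvd_natAbs.2 h4
          simp only [Int.natAbs_natCast, Int.natAbs_one, Nat.dvd_one] at h5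
          exact hpp.one_lt.ne' h5
        have h6 := hbad p hpS h3
        rw [mul_one] at h6
        exact h6 hdvd
  have h1 := (Finset.card_le_card hsub).trans (Finset.card_union_le _ _)
  have h2 := h1.trans (add_le_add le_rfl ((Finset.card_union_le _ _).trans
    (add_le_add Finset.card_biUnion_le le_rfl)))
  have h3 : (((Icc 1 B).filter (fun n : ℕ => n.Prime ∧ Bad S r n 1)).card : ℝ) ≤
      (((Icc 1 B).filter (fun n : ℕ => ∀ p ∈ pz y, ¬ QP S r y0 p n)).card : ℝ) +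
      (∑ p ∈ Ioc y0 y, (((((Icc (-(B : ℤ)) B).filter
        (fun a => ((p ^ 2 : ℕ) : ℤ) ∣ a - r p)).image Int.toNat)).card : ℝ) +
        ((Icc 1 y).card : ℝ)) := by
    exact_mod_cast h2
  have h4 : ∀ p ∈ Ioc y0 y, (((((Icc (-(B : ℤ)) B).filter
        (fun a => ((p ^ 2 : ℕ) : ℤ) ∣ a - r p)).image Int.toNat)).card : ℝ) ≤
      (2 * B + 1) * ((p : ℝ) ^ 2)⁻¹ + 1 := by
    intro p hp
    have hp0 : 0 < p := by
      have := (Finset.mem_Ioc.1 hp).1
      omega
    have h5 := class_count B (p ^ 2) (pow_pos hp0 2) (r p)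
    have h6 : (((((Icc (-(B : ℤ)) B).filter
        (fun a => ((p ^ 2 : ℕ) : ℤ) ∣ a - r p)).image Int.toNat)).card : ℝ) ≤
        (((Icc (-(B : ℤ)) B).filter (fun a => ((p ^ 2 : ℕ) : ℤ) ∣ a - r p)).card : ℝ) := by
      exact_mod_cast Finset.card_image_le
    refine h6.trans ?_
    push_cast at h5 ⊢
    rwa [div_eq_mul_inv] at h5
  have h5 : ∑ p ∈ Ioc y0 y, (((((Icc (-(B : ℤ)) B).filter
        (fun a => ((p ^ 2 : ℕ) : ℤ) ∣ a - r p)).image Int.toNat)).card : ℝ) ≤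
      (2 * B + 1) / y0 + y := by
    refine (Finset.sum_le_sum h4).trans ?_
    rw [Finset.sum_add_distrib, ← Finset.mul_sum]
    refine add_le_add ?_ ?_
    · rw [div_eq_mul_inv]
      refine mul_le_mul_of_nonneg_left ?_ (by positivity)
      by_cases hy : y0 ≤ y
      · refine (sum_Ioc_inv_sq_le_sub hy0.ne' hy).trans ?_
        have : (0 : ℝ) ≤ (y : ℝ)⁻¹ := by positivity
        linarith
      · rw [Finset.Ioc_eq_empty (by omega), Finset.sum_empty]
        positivity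
    · rw [Finset.sum_const, Nat.card_Ioc, nsmul_eq_mul, mul_one]
      exact_mod_cast Nat.sub_le y y0
  have h6 : ((Icc 1 y).card : ℝ) = y := by
    rw [Nat.card_Icc]
    norm_num
  rw [h6] at h3
  linarith

end Pool.Agent.V11235.SI
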